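import Pool.Agent.Work.MP_a32fd7_lc.Final

/-!
# The weak degrees of `δ`-shift complex sequences are strictly increasing in `δ`

For all rationals `0 < α < β < 1` the class `SC(α)` of `α`-shift complex sequences is strictly
below `SC(β)` in the weak (Muchnik) degrees: there is an `α`-shift complex sequence which
computes no `β`-shift complex sequence.
-/

namespace Pool.Agent.Results.MP_a32fd7_lc.ShiftComplexStrict

open Pool.Agent.Work.MP_a32fd7_lc

theorem result : ∀ U : List Bool →. List Bool, IsUniversal U →
    ∀ α β : ℚ, 0 < α → α < β → β < 1 → WeakLT (SC U α) (SC U β) :=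
  fun _ hU _ _ hα hαβ hβ => weakLT_SC hU hα hαβ hβ

end Pool.Agent.Results.MP_a32fd7_lc.ShiftComplexStrict
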